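import Pool.Agent.N343.TC.Stm

/-! Project TC (MP_8dfb46_an), part REM2: the remainder of `|z|²`. -/

set_option autoImplicit false

open MeasureTheory Set Filter Topology Metric Complex
open scoped ContDiff RealInnerProductSpace ComplexConjugate

namespace Pool.Agent.N163.TC.Rem2

open Pool.Agent.N343.TC

variable {B : Type} [NormedCommRing B] [NormedAlgebra ℂ B]

theorem kpos {k : ℕ} (hk : 6 ≤ k) : (0 : ℝ) < (k : ℝ) := by
  have : 0 < k := by omega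
  exact_mod_cast this

theorem add' {m : ℕ} {f g : ℕ → B → B} (hf : Sm m f) (hg : Sm m g) :
    Sm m (fun k W => f k W + g k W) := by
  obtain ⟨C, hC, h1⟩ := hf
  obtain ⟨D, hD, h2⟩ := hg
  refine ⟨C + D, add_nonneg hC hD, fun k hk W W' hW hW' => ?_⟩
  obtain ⟨h3, h4⟩ := h1 k hk W W' hW hW'
  obtain ⟨h5, h6⟩ := h2 k hk W W' hW hW'
  constructor
  · rw [add_div]
    exact (norm_add_le _ _).trans (add_le_add h3 h5)
  · rw [add_div, add_mul, add_sub_add_comm]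
    exact (norm_add_le _ _).trans (add_le_add h4 h6)

theorem neg' {m : ℕ} {f : ℕ → B → B} (hf : Sm m f) : Sm m (fun k W => -f k W) := by
  obtain ⟨C, hC, h1⟩ := hf
  refine ⟨C, hC, fun k hk W W' hW hW' => ?_⟩
  obtain ⟨h3, h4⟩ := h1 k hk W W' hW hW'
  constructor
  · rwa [norm_neg]
  · rwa [← neg_sub', norm_neg]

theorem mul' {m n : ℕ} {f g : ℕ → B → B} (hf : Sm m f) (hg : Sm n g) :
    Sm (m + n) (fun k W => f k W * g k W) := by
  obtain ⟨C, hC, h1⟩ := hf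
  obtain ⟨D, hD, h2⟩ := hg
  refine ⟨2 * (C * D), by positivity, fun k hk W W' hW hW' => ?_⟩
  have hk0 := kpos hk
  obtain ⟨h3, h4⟩ := h1 k hk W W' hW hW'
  obtain ⟨h3', -⟩ := h1 k hk W' W hW' hW
  obtain ⟨h5, h6⟩ := h2 k hk W W' hW hW'
  have e1 : C * D / (k : ℝ) ^ (m + n) = C / (k : ℝ) ^ m * (D / (k : ℝ) ^ n) := by
    rw [pow_add, div_mul_div_comm]
  have e2 : 2 * (C * D) / (k : ℝ) ^ (m + n) = 2 * (C / (k : ℝ) ^ m * (D / (k : ℝ) ^ n)) := by
    rw [← e1]; ring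
  have p1 : 0 ≤ C / (k : ℝ) ^ m := by positivity
  have p2 : 0 ≤ D / (k : ℝ) ^ n := by positivity
  constructor
  · rw [e2]
    refine (norm_mul_le _ _).trans ((mul_le_mul h3 h5 (norm_nonneg _) p1).trans ?_)
    have := mul_nonneg p1 p2
    linarith
  · rw [e2]
    have e3 : f k W * g k W - f k W' * g k W' =
        (f k W - f k W') * g k W + f k W' * (g k W - g k W') := by ring
    rw [e3]
    refine (norm_add_le _ _).trans ?_
    have a1 : ‖(f k W - f k W') * g k W‖ ≤ C / (k : ℝ) ^ m * ‖W - W'‖ * (D / (k : ℝ) ^ n) :=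
      (norm_mul_le _ _).trans (mul_le_mul h4 h5 (norm_nonneg _) (by positivity))
    have a2 : ‖f k W' * (g k W - g k W')‖ ≤ C / (k : ℝ) ^ m * (D / (k : ℝ) ^ n * ‖W - W'‖) :=
      (norm_mul_le _ _).trans (mul_le_mul h3' h6 (norm_nonneg _) p1)
    linarith

theorem const' (b : B) : Sm 0 (fun _ (_ : B) => b) := by
  refine ⟨‖b‖, norm_nonneg _, fun k hk W W' hW hW' => ⟨by simp, ?_⟩⟩
  rw [sub_self, norm_zero]
  positivity

theorem id' : Sm 0 (fun _ (W : B) => W) := by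
  refine ⟨6, by norm_num, fun k hk W W' hW hW' => ⟨by simpa using hW, ?_⟩⟩
  rw [pow_zero, div_one]
  have := norm_nonneg (W - W')
  linarith

theorem smul' {m n : ℕ} {f : ℕ → B → B} (hf : Sm m f) {c : ℕ → ℂ} {C : ℝ} (hC : 0 ≤ C)
    (hc : ∀ k : ℕ, 6 ≤ k → ‖c k‖ / (k : ℝ) ^ m ≤ C / (k : ℝ) ^ n) :
    Sm n (fun k W => c k • f k W) := by
  obtain ⟨D, hD, h1⟩ := hf
  refine ⟨C * D, by positivity, fun k hk W W' hW hW' => ?_⟩
  have hk0 := kpos hk
  obtain ⟨h3, h4⟩ := h1 k hk W W' hW hW'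
  have h5 : ‖c k‖ * (D / (k : ℝ) ^ m) ≤ C * D / (k : ℝ) ^ n := by
    have := mul_le_mul_of_nonneg_right (hc k hk) hD
    calc ‖c k‖ * (D / (k : ℝ) ^ m) = ‖c k‖ / (k : ℝ) ^ m * D := by ring
      _ ≤ C / (k : ℝ) ^ n * D := this
      _ = C * D / (k : ℝ) ^ n := by ring
  constructor
  · rw [norm_smul]
    exact (mul_le_mul_of_nonneg_left h3 (norm_nonneg _)).trans h5
  · rw [← smul_sub, norm_smul]
    refine (mul_le_mul_of_nonneg_left h4 (norm_nonneg _)).trans ?_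
    rw [← mul_assoc]
    exact mul_le_mul_of_nonneg_right h5 (norm_nonneg _)

theorem mono' {m : ℕ} {f : ℕ → B → B} (hf : Sm (m + 1) f) : Sm m f := by
  have h := smul' (n := m) hf (c := fun _ => 1) (C := 1) zero_le_one (fun k hk => by
    have hk0 := kpos hk
    have hk1 : (1 : ℝ) ≤ k := by
      have : 1 ≤ k := by omega
      exact_mod_cast this
    rw [norm_one]
    exact div_le_div_of_nonneg_left zero_le_one (by positivity)
      (pow_le_pow_right₀ hk1 (Nat.le_succ m)))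
  simpa using h

theorem congr' {m : ℕ} {f g : ℕ → B → B} (hf : Sm m f)
    (h : ∀ k : ℕ, 6 ≤ k → ∀ W, f k W = g k W) : Sm m g := by
  obtain ⟨C, hC, h1⟩ := hf
  refine ⟨C, hC, fun k hk W W' hW hW' => ?_⟩
  rw [← h k hk W, ← h k hk W']
  exact h1 k hk W W' hW hW'

theorem st_sub (A : WA B) (x y : B) : A.st (x - y) = A.st x - A.st y := by
  have h1 : A.st (-y) = - A.st y := by
    have := A.st_smul (-1) y
    simpa using this
  rw [sub_eq_add_neg, A.st_add, h1, sub_eq_add_neg]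

theorem st' (A : WA B) {m : ℕ} {f : ℕ → B → B} (hf : Sm m f) : Sm m (fun k W => A.st (f k W)) := by
  obtain ⟨C, hC, h1⟩ := hf
  refine ⟨C, hC, fun k hk W W' hW hW' => ?_⟩
  obtain ⟨h3, h4⟩ := h1 k hk W W' hW hW'
  constructor
  · exact (A.st_norm _).trans h3
  · rw [← st_sub]
    exact (A.st_norm _).trans h4

theorem st_one (A : WA B) : A.st 1 = 1 := by
  have h1 : ∀ x, A.st 1 * x = x := by
    intro x
    have h2 := A.st_mul 1 (A.st x)
    rw [one_mul, A.st_st] at h2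
    exact h2.symm
  have := h1 1
  rwa [mul_one] at this

/-- `α` -/
noncomputable def al (A : WA B) (k : ℕ) (W : B) : B :=
  ((k : ℂ) ^ 2 * (aa k : ℂ)) • th A k W + ((k : ℂ) ^ 2 * (bb k : ℂ)) • (th A k W) ^ 2

theorem main (hP : S_POW) (hS : S_SEQ) : S_REM2 := by
  intro B _ _ _ A
  obtain ⟨hP1, -, -⟩ := hP B A.one_norm
  obtain ⟨C, hC, hseq⟩ := hS
  have hth1 : Sm 1 (fun k (W : B) => th A k W - (4 / 5 : ℂ) • A.T) := by
    have h1 : Sm (0 + 1) (fun k (W : B) => ((4 / 5 : ℂ) • A.T) * ((1 + xx k W) ^ k - 1)) :=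
      mul' (const' _) hP1
    rw [zero_add] at h1
    refine congr' h1 fun k _ W => ?_
    rw [th, mul_sub, mul_one, smul_mul_assoc]
  have hth0 : Sm 0 (fun k (W : B) => th A k W) := by
    refine congr' (add' (mono' hth1) (const' ((4 / 5 : ℂ) • A.T))) fun k _ W => ?_
    rw [sub_add_cancel]
  have hth2 : Sm 0 (fun k (W : B) => (th A k W) ^ 2) := by
    refine congr' (mul' hth0 hth0) fun k _ W => ?_
    rw [sq]
  -- `α - (6/5) T` is of order one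
  have hal1 : Sm 1 (fun k (W : B) => al A k W - (6 / 5 : ℂ) • A.T) := by
    have h1 : Sm 1 (fun k (W : B) => (((k : ℂ) ^ 2 * (aa k : ℂ)) - 3 / 2) • th A k W) := by
      refine smul' hth0 hC fun k hk => ?_
      have h2 := (hseq k hk).1
      rw [pow_zero, div_one, pow_one]
      have h3 : ((k : ℂ) ^ 2 * (aa k : ℂ)) - 3 / 2 = (((k : ℝ) ^ 2 * aa k - 3 / 2 : ℝ) : ℂ) := by
        push_cast; ring
      rw [h3, Complex.norm_real, Real.norm_eq_abs]
      exact h2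
    have h2 : Sm 1 (fun k (W : B) => ((k : ℂ) ^ 2 * (bb k : ℂ)) • (th A k W) ^ 2) := by
      refine smul' hth2 hC fun k hk => ?_
      have h2 := (hseq k hk).2.1
      rw [pow_zero, div_one, pow_one]
      have h3 : ((k : ℂ) ^ 2 * (bb k : ℂ)) = (((k : ℝ) ^ 2 * bb k : ℝ) : ℂ) := by
        push_cast; ring
      rw [h3, Complex.norm_real, Real.norm_eq_abs]
      exact h2
    have h3 : Sm 1 (fun k (W : B) => (fun _ => (3 / 2 : ℂ)) k • (th A k W - (4 / 5 : ℂ) • A.T)) := by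
      refine smul' hth1 (C := ‖(3 / 2 : ℂ)‖) (norm_nonneg _) fun k _ => le_refl _
    refine congr' (add' (add' h1 h3) h2) fun k _ W => ?_
    rw [al, smul_sub, smul_smul, sub_smul]
    have h4 : (3 / 2 : ℂ) * (4 / 5) = 6 / 5 := by norm_num
    rw [h4]
    abel
  have hal0 : Sm 0 (fun k (W : B) => al A k W) := by
    refine congr' (add' (mono' hal1) (const' ((6 / 5 : ℂ) • A.T))) fun k _ W => ?_
    rw [sub_add_cancel]
  have hR2 : ∀ k : ℕ, 6 ≤ k → ‖(RR k : ℂ) ^ 2‖ ≤ 1 := by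
    intro k hk
    obtain ⟨-, -, -, -, -, -, -, h1, h2, -⟩ := hseq k hk
    rw [norm_pow, Complex.norm_real, Real.norm_eq_abs, abs_of_pos h1]
    exact pow_le_one₀ h1.le h2.le
  -- division by `k²`
  have hdiv : ∀ f : ℕ → B → B, Sm 0 f → Sm 2 (fun k W => (((k : ℂ) ^ 2)⁻¹) • f k W) := by
    intro f hf
    refine smul' hf (C := 1) zero_le_one fun k hk => ?_
    rw [norm_inv, norm_pow, Complex.norm_natCast, pow_zero, div_one, one_div]
  have hu : Sm 2 (fun k (W : B) => xx k W) := hdiv _ id'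
  have hv : Sm 2 (fun k (W : B) => (((k : ℂ) ^ 2)⁻¹) • al A k W) := hdiv _ hal0
  have hp : Sm 2 (fun k (W : B) => xx k W + A.st (xx k W) + xx k W * A.st (xx k W)) :=
    add' (add' hu (st' A hu)) (mono' (m := 2) (mono' (m := 3) (mul' (m := 2) (n := 2) hu (st' A hu))))
  have hq : Sm 2 (fun k (W : B) => (((k : ℂ) ^ 2)⁻¹) • al A k W + A.st ((((k : ℂ) ^ 2)⁻¹) • al A k W)
      + ((((k : ℂ) ^ 2)⁻¹) • al A k W) * A.st ((((k : ℂ) ^ 2)⁻¹) • al A k W)) :=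
    add' (add' hv (st' A hv)) (mono' (m := 2) (mono' (m := 3) (mul' (m := 2) (n := 2) hv (st' A hv))))
  have hrest : Sm 4 (fun k (W : B) => xx k W * A.st (xx k W) +
      ((((k : ℂ) ^ 2)⁻¹) • al A k W) * A.st ((((k : ℂ) ^ 2)⁻¹) • al A k W) +
      (xx k W + A.st (xx k W) + xx k W * A.st (xx k W)) *
      ((((k : ℂ) ^ 2)⁻¹) • al A k W + A.st ((((k : ℂ) ^ 2)⁻¹) • al A k W)
      + ((((k : ℂ) ^ 2)⁻¹) • al A k W) * A.st ((((k : ℂ) ^ 2)⁻¹) • al A k W))) :=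
    add' (add' (mul' hu (st' A hu)) (mul' hv (st' A hv))) (mul' hp hq)
  have hrest2 : Sm 1 (fun k (W : B) => ((k : ℂ) ^ 2 * (RR k : ℂ) ^ 2) •
      (xx k W * A.st (xx k W) +
      ((((k : ℂ) ^ 2)⁻¹) • al A k W) * A.st ((((k : ℂ) ^ 2)⁻¹) • al A k W) +
      (xx k W + A.st (xx k W) + xx k W * A.st (xx k W)) *
      ((((k : ℂ) ^ 2)⁻¹) • al A k W + A.st ((((k : ℂ) ^ 2)⁻¹) • al A k W)
      + ((((k : ℂ) ^ 2)⁻¹) • al A k W) * A.st ((((k : ℂ) ^ 2)⁻¹) • al A k W)))) := by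
    refine smul' hrest (C := 1) zero_le_one fun k hk => ?_
    have hk0 := kpos hk
    have hk1 : (1 : ℝ) ≤ k := by
      have : 1 ≤ k := by omega
      exact_mod_cast this
    rw [norm_mul, norm_pow, Complex.norm_natCast]
    rw [div_le_div_iff₀ (by positivity) (by positivity)]
    have h1 := hR2 k hk
    have h2 : (k : ℝ) ^ 2 * (k : ℝ) ^ 1 ≤ (k : ℝ) ^ 4 := by
      rw [← pow_add]
      exact pow_le_pow_right₀ hk1 (by norm_num)
    calc (k : ℝ) ^ 2 * ‖(RR k : ℂ) ^ 2‖ * (k : ℝ) ^ 1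
        = (k : ℝ) ^ 2 * (k : ℝ) ^ 1 * ‖(RR k : ℂ) ^ 2‖ := by ring
      _ ≤ (k : ℝ) ^ 4 * 1 := mul_le_mul h2 h1 (norm_nonneg _) (by positivity)
      _ = 1 * (k : ℝ) ^ 4 := by ring
  have hlin : Sm 1 (fun k (W : B) => ((RR k : ℂ) ^ 2 - 1) •
      (W + A.st W + (al A k W + A.st (al A k W)))) := by
    refine smul' (add' (add' id' (st' A id')) (add' hal0 (st' A hal0))) hC fun k hk => ?_
    obtain ⟨-, -, -, -, -, -, h1, -⟩ := hseq k hk
    rw [pow_zero, div_one, pow_one]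
    have h3 : (RR k : ℂ) ^ 2 - 1 = (((RR k) ^ 2 - 1 : ℝ) : ℂ) := by push_cast; ring
    rw [h3, Complex.norm_real, Real.norm_eq_abs]
    exact h1
  refine congr' (add' (add' (add' hlin hal1) (st' A hal1)) hrest2) fun k hk W => ?_
  -- the identity
  have hk0 : (k : ℂ) ≠ 0 := by
    have : k ≠ 0 := by omega
    exact_mod_cast this
  have hk2 : (k : ℂ) ^ 2 ≠ 0 := pow_ne_zero _ hk0
  have hAAB : AAB k (th A k W) = 1 + (((k : ℂ) ^ 2)⁻¹) • al A k W := by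
    rw [AAB, al, smul_add, smul_smul, smul_smul, inv_mul_cancel_left₀ hk2, inv_mul_cancel_left₀ hk2,
      add_assoc]
  have hstal : A.st ((((k : ℂ) ^ 2)⁻¹) • al A k W) = (((k : ℂ) ^ 2)⁻¹) • A.st (al A k W) := by
    rw [A.st_smul]
    congr 1
    rw [map_inv₀, map_pow, Complex.conj_natCast]
  have hstx : A.st (xx k W) = (((k : ℂ) ^ 2)⁻¹) • A.st W := by
    rw [xx, A.st_smul]
    congr 1
    rw [map_inv₀, map_pow, Complex.conj_natCast]
  have hst6 : A.st ((6 / 5 : ℂ) • A.T) = (6 / 5 : ℂ) • A.S := by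
    have h65 : (6 / 5 : ℂ) = ((6 / 5 : ℝ) : ℂ) := by push_cast; ring
    rw [A.st_smul, A.st_T, h65, Complex.conj_ofReal]
  rw [r2, MB, hAAB, A.st_add, A.st_add, st_one, st_sub, hst6]
  obtain ⟨u, hu⟩ : ∃ u, u = xx k W := ⟨_, rfl⟩
  obtain ⟨us, hus⟩ : ∃ us, us = A.st (xx k W) := ⟨_, rfl⟩
  obtain ⟨v, hv⟩ : ∃ v, v = (((k : ℂ) ^ 2)⁻¹) • al A k W := ⟨_, rfl⟩
  obtain ⟨vs, hvs⟩ : ∃ vs, vs = A.st ((((k : ℂ) ^ 2)⁻¹) • al A k W) := ⟨_, rfl⟩
  have hW : W = ((k : ℂ) ^ 2) • u := by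
    rw [hu, xx, smul_smul, mul_inv_cancel₀ hk2, one_smul]
  have hWs : A.st W = ((k : ℂ) ^ 2) • us := by
    rw [hus, hstx, smul_smul, mul_inv_cancel₀ hk2, one_smul]
  have ha : al A k W = ((k : ℂ) ^ 2) • v := by
    rw [hv, smul_smul, mul_inv_cancel₀ hk2, one_smul]
  have has : A.st (al A k W) = ((k : ℂ) ^ 2) • vs := by
    rw [hvs, hstal, smul_smul, mul_inv_cancel₀ hk2, one_smul]
  rw [← hus, ← hvs, ← hu, ← hv, has, ha, hWs]
  have hW' : ∀ F : B → B, F W = F (((k : ℂ) ^ 2) • u) := fun F => by rw [← hW]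
  rw [hW' fun W => ((RR k : ℂ) ^ 2 - 1) • (W + ((k : ℂ) ^ 2) • us +
    (((k : ℂ) ^ 2) • v + ((k : ℂ) ^ 2) • vs)) + (((k : ℂ) ^ 2) • v - (6 / 5 : ℂ) • A.T) +
    (((k : ℂ) ^ 2) • vs - (6 / 5 : ℂ) • A.S) + ((k : ℂ) ^ 2 * (RR k : ℂ) ^ 2) •
    (u * us + v * vs + (u + us + u * us) * (v + vs + v * vs))]
  rw [hW' fun W => ((k : ℂ) ^ 2 * (RR k : ℂ) ^ 2) • ((1 + u) * (1 + us) * ((1 + v) * (1 + vs))) -
    ((k : ℂ) ^ 2 * (RR k : ℂ) ^ 2) • (1 : B) - W - ((k : ℂ) ^ 2) • us -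
      (6 / 5 : ℂ) • (A.T + A.S)]
  simp only [Algebra.smul_def, map_mul, map_sub, map_pow, map_one]
  ring

end Pool.Agent.N163.TC.Rem2
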